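import Pool.Agent.Lib.H66N.N1
import Pool.Agent.Lib.H98M.ME

/-!
# H66N, file N2: gluing with degree shift, joins, isomorphisms, `hc_of_he` in degree `k`, the frame
of the degree induction
-/

set_option autoImplicit false
set_option linter.unusedSectionVars false

namespace H66N

open Finset H98P H98Z H24N H98L H98M

section general

variable {E : Type*} [Fintype E] [DecidableEq E]

/-- A cone in the grid. -/
theorem coneN {cross : E → E → Prop} (hsymm : ∀ e f, cross e f → cross f e) {x y : E → ℕ}
    {X : Finset E} (hG : Grid cross x y X) {d : E} (hd : d ∈ X) (h : ∀ z ∈ X, Le x y d z) (k : ℕ) :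
    AcyN cross k X := acyN_of_acy (acy_cone hsymm hG hd h) k

/-- GLUING LEMMA, with the degree shift. -/
theorem glueN {cross : E → E → Prop} (hsymm : ∀ e f, cross e f → cross f e) {x y : E → ℕ} {n : ℕ} :
    ∀ (k : ℕ) (X : Finset E), X.card = k → X.Nonempty → Grid cross x y X →
      (∀ c d, Cons x y X c d → AcyN cross n (U x y X c d)) → AcyN cross (n + 1) X := by
  classical
  intro k
  induction k using Nat.strong_induction_on with
  | _ k ih =>
    intro X hk hX hG hc
    -- the last minimal element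
    obtain ⟨d, hd, hdmax⟩ := exists_max_image (X.filter fun m => Mn x y X m) x (by
      obtain ⟨z, hz⟩ := hX
      obtain ⟨m, hm, _⟩ := exists_mn hG hz
      exact ⟨m, mem_filter.2 ⟨hm.1, hm⟩⟩)
    rw [mem_filter] at hd
    obtain ⟨hdX, hdm⟩ := hd
    by_cases h1 : ∃ m, Mn x y X m ∧ m ≠ d
    · -- the last minimal element but one
      obtain ⟨c, hc1, hcmax⟩ := exists_max_image (X.filter fun m => Mn x y X m ∧ m ≠ d) x (by
        obtain ⟨m, hm⟩ := h1
        exact ⟨m, mem_filter.2 ⟨hm.1.1, hm⟩⟩)
      rw [mem_filter] at hc1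
      obtain ⟨hcX, hcm, hcd⟩ := hc1
      have hlt : ∀ m, Mn x y X m → m ≠ d → x m < x d := by
        intro m hm hmd
        have h2 := hdmax m (mem_filter.2 ⟨hm.1, hm⟩)
        rcases Nat.lt_or_ge (x m) (x d) with h3 | h3
        · exact h3
        · exact absurd (hG.inj m hm.1 d hdX (le_antisymm h2 h3)
            (le_antisymm (mn_y hdm hm h3) (mn_y hm hdm h2))) hmd
      have hcons : Cons x y X c d := by
        refine ⟨hcm, hdm, hlt c hcm hcd, fun m hm h2 h3 => ?_⟩
        have h4 : m ≠ d := fun h => by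
          rw [h] at h3
          exact lt_irrefl _ h3
        have h5 := hcmax m (mem_filter.2 ⟨hm.1, hm, h4⟩)
        omega
      obtain ⟨X', hX'⟩ : ∃ X' : Finset E, ∀ z, z ∈ X' ↔ z ∈ X ∧ ∃ m, Mn x y X m ∧ m ≠ d ∧
          Le x y m z := ⟨X.filter fun z => ∃ m, Mn x y X m ∧ m ≠ d ∧ Le x y m z, fun z => mem_filter⟩
      obtain ⟨Xd, hXd⟩ : ∃ Xd : Finset E, ∀ z, z ∈ Xd ↔ z ∈ X ∧ Le x y d z :=
        ⟨X.filter fun z => Le x y d z, fun z => mem_filter⟩
      have hX'X : X' ⊆ X := fun z hz => ((hX' z).1 hz).1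
      have hXdX : Xd ⊆ X := fun z hz => ((hXd z).1 hz).1
      have hdX' : d ∉ X' := by
        intro h
        obtain ⟨_, m, hm, hmd, hle⟩ := (hX' d).1 h
        exact hmd (hdm.2 m hm.1 hle)
      have hmem : ∀ m, Mn x y X m → m ≠ d → m ∈ X' := fun m hm hmd =>
        (hX' m).2 ⟨hm.1, m, hm, hmd, Le.rfl⟩
      have hmn' : ∀ m, Mn x y X' m ↔ Mn x y X m ∧ m ≠ d := by
        intro m
        constructor
        · rintro ⟨hm1, hm2⟩
          obtain ⟨_, m0, h2, h3, h4⟩ := (hX' m).1 hm1
          have h5 := hm2 m0 (hmem m0 h2 h3) h4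
          rw [← h5]
          exact ⟨h2, h3⟩
        · rintro ⟨hm1, hm2⟩
          exact ⟨hmem m hm1 hm2, fun z hz => hm1.2 z (hX'X hz)⟩
      have a1 : AcyN cross (n + 1) X' := by
        refine ih X'.card ?_ X' rfl ⟨c, hmem c hcm hcd⟩ (hG.mono hX'X) ?_
        · rw [← hk]
          exact card_lt_card ⟨hX'X, fun h => hdX' (h hdX)⟩
        · intro c' d' h2
          obtain ⟨h3, h4, h5, h6⟩ := h2
          obtain ⟨h3a, h3b⟩ := (hmn' c').1 h3
          obtain ⟨h4a, h4b⟩ := (hmn' d').1 h4
          have h7 : Cons x y X c' d' := by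
            refine ⟨h3a, h4a, h5, fun m hm h8 h9 => ?_⟩
            refine h6 m ((hmn' m).2 ⟨hm, fun h => ?_⟩) h8 h9
            rw [h] at h9
            have := hlt d' h4a h4b
            omega
          have h8 : U x y X' c' d' = U x y X c' d' := by
            ext z
            rw [mem_U, mem_U]
            constructor
            · exact fun h => ⟨hX'X h.1, h.2⟩
            · exact fun h => ⟨(hX' z).2 ⟨h.1, c', h3a, h3b, h.2.1⟩, h.2⟩
          rw [h8]
          exact hc c' d' h7
      have a2 : AcyN cross (n + 1) Xd := coneN hsymm (hG.mono hXdX) ((hXd d).2 ⟨hdX, Le.rfl⟩)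
        (fun z hz => ((hXd z).1 hz).2) _
      have a3 : AcyN cross n (U x y X c d) := hc c d hcons
      have hmv := mvN (k := n) (dc_plane (cross := cross) X') (dc_plane (cross := cross) Xd) a1 a2 (by
        refine AcyKN.congr (fun s => ?_) (acyKN_iff.2 a3)
        constructor
        · rintro ⟨h2, h3⟩
          refine ⟨⟨fun z hz => ?_, h3⟩, fun z hz => ?_, h3⟩
          · obtain ⟨h4, h5, h6⟩ := mem_U.1 (h2 hz)
            exact (hX' z).2 ⟨h4, c, hcm, hcd, h5⟩
          · obtain ⟨h4, h5, h6⟩ := mem_U.1 (h2 hz)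
            exact (hXd z).2 ⟨h4, h6⟩
        · rintro ⟨⟨h2, h3⟩, h4, _⟩
          refine ⟨fun z hz => ?_, h3⟩
          obtain ⟨h5, m, hm, hmd, h6⟩ := (hX' z).1 (h2 hz)
          obtain ⟨_, h7⟩ := (hXd z).1 (h4 hz)
          refine mem_U.2 ⟨h5, ?_, h7⟩
          have h8 := hcmax m (mem_filter.2 ⟨hm.1, hm, hmd⟩)
          have h9 := mn_y hm hcm h8
          have h10 := hlt c hcm hcd
          obtain ⟨h11, h12⟩ := h6
          obtain ⟨h13, h14⟩ := h7
          exact ⟨by omega, by omega⟩)
      refine acyKN_iff.1 (AcyKN.congr (fun s => ?_) hmv)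
      constructor
      · rintro (⟨h2, h3⟩ | ⟨h2, h3⟩)
        · exact ⟨h2.trans hX'X, h3⟩
        · exact ⟨h2.trans hXdX, h3⟩
      · rintro ⟨h2, h3⟩
        by_cases h4 : s ⊆ X'
        · exact Or.inl ⟨h4, h3⟩
        · refine Or.inr ⟨fun z hz => ?_, h3⟩
          rw [Finset.not_subset] at h4
          obtain ⟨w, hw, hwX'⟩ := h4
          by_contra hzd
          -- `w` is above `d` only, `z` is not above `d`
          obtain ⟨mw, hmw, hlw⟩ := exists_mn hG (h2 hw)
          have hmwd : mw = d := by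
            by_contra h5
            exact hwX' ((hX' w).2 ⟨h2 hw, mw, hmw, h5, hlw⟩)
          rw [hmwd] at hlw
          obtain ⟨mz, hmz, hlz⟩ := exists_mn hG (h2 hz)
          have hmzd : mz ≠ d := by
            intro h5
            rw [h5] at hlz
            exact hzd ((hXd z).2 ⟨h2 hz, hlz⟩)
          apply h3 w hw z hz
          refine (hG.cr w (h2 hw) z (h2 hz)).2 ⟨fun h5 => ?_, fun h5 => ?_⟩
          · exact hzd ((hXd z).2 ⟨h2 hz, hlw.trans h5⟩)
          · exact hwX' ((hX' w).2 ⟨h2 hw, mz, hmz, hmzd, hlz.trans h5⟩)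
    · push Not at h1
      refine coneN hsymm hG hdX (fun z hz => ?_) _
      obtain ⟨m, hm, hle⟩ := exists_mn hG hz
      rw [← h1 m hm]
      exact hle

/-- Joins: adding elements which cross nothing of `S`. -/
theorem joinN {cross : E → E → Prop} (hsymm : ∀ e f, cross e f → cross f e) {S T : Finset E} {k : ℕ}
    (hS : AcyN cross k S) (h : ∀ e ∈ S, ∀ f ∈ T, ¬ cross e f) : AcyN cross k (S ∪ T) := by
  rw [← union_sdiff_self_eq_union]
  refine splitN_mpr hsymm disjoint_sdiff (fun Y hY _ _ => ?_) hS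
  have h1 : Miss cross S Y = S := by
    ext e
    rw [mem_miss]
    exact ⟨fun h => h.1, fun he => ⟨he, fun y hy => h e he y (mem_sdiff.1 (hY hy)).1⟩⟩
  rw [h1]
  exact hS.mono (by omega)

/-- If `Acy`-like statements hold for all larger links, `S` and `S ∪ T` are equivalent. -/
theorem splitN {cross : E → E → Prop} (hsymm : ∀ e f, cross e f → cross f e) {S T : Finset E}
    (hST : Disjoint S T) {k : ℕ}
    (hl : ∀ Y ⊆ T, Y.Nonempty → Plane cross Y → AcyN cross k (Miss cross S Y)) :
    AcyN cross k S ↔ AcyN cross k (S ∪ T) :=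
  ⟨splitN_mpr hsymm hST fun Y h1 h2 h3 => (hl Y h1 h2 h3).mono (by omega), splitN_mp hsymm hST hl⟩

/-- Removing one element. -/
theorem eraseN {cross : E → E → Prop} (hsymm : ∀ e f, cross e f → cross f e) {S : Finset E} {x : E}
    (hx : x ∈ S) {k : ℕ} (hS : AcyN cross k S)
    (hl : AcyN cross k ((S.erase x).filter fun e => e ∈ Miss cross S {x})) :
    AcyN cross k (S.erase x) := by
  have hS' : AcyN cross k (S.erase x ∪ {x}) := by
    have h0 : S.erase x ∪ {x} = S := by
      rw [union_comm, ← insert_eq, insert_erase hx]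
    rw [h0]
    exact hS
  refine splitN_mp hsymm (disjoint_singleton_right.2 (notMem_erase x S)) (fun Y hY hYn _ => ?_) hS'
  have h1 : Y = {x} := by
    rcases subset_singleton_iff.1 hY with h | h
    · exact absurd h hYn.ne_empty
    · exact h
  subst h1
  have h2 : Miss cross (S.erase x) {x} = (S.erase x).filter fun e => e ∈ Miss cross S {x} := by
    ext e
    rw [mem_miss, mem_filter, mem_miss]
    constructor
    · exact fun h => ⟨h.1, (mem_erase.1 h.1).2, h.2⟩
    · exact fun h => ⟨h.1, h.2.2⟩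
  rw [h2]
  exact hl

end general

/-- Transport along an injective map which keeps crossings. -/
theorem isoN {E E' : Type*} [Fintype E] [DecidableEq E] [Fintype E'] [DecidableEq E']
    {cross : E → E → Prop} {cross' : E' → E' → Prop} {S : Finset E} {S' : Finset E'} {k : ℕ}
    (f : E → E') (hf : ∀ a ∈ S, ∀ b ∈ S, f a = f b → a = b) (hS : S.image f = S')
    (hc : ∀ a ∈ S, ∀ b ∈ S, cross a b ↔ cross' (f a) (f b)) (h : AcyN cross' k S') :
    AcyN cross k S := by
  classical
  subst hS
  have hcard : ∀ s ⊆ S, (s.image f).card = s.card := fun s hs =>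
    card_image_of_injOn fun a ha b hb hab => hf a (hs ha) b (hs hb) hab
  have hinj : ∀ s ⊆ S, ∀ t ⊆ S, s.image f = t.image f → s = t := by
    have key : ∀ s ⊆ S, ∀ t ⊆ S, s.image f = t.image f → s ⊆ t := by
      intro s hs t ht hst a ha
      have h1 : f a ∈ t.image f := by
        rw [← hst]
        exact mem_image_of_mem f ha
      obtain ⟨b, hb, hab⟩ := mem_image.1 h1
      rw [← hf b (ht hb) a (hs ha) hab]
      exact hb
    exact fun s hs t ht hst => subset_antisymm (key s hs t ht hst) (key t ht s hs hst.symm)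
  have hpl : ∀ s ⊆ S, Plane cross s → Plane cross' (s.image f) := by
    intro s hs hp a ha b hb
    obtain ⟨a', ha', rfl⟩ := mem_image.1 ha
    obtain ⟨b', hb', rfl⟩ := mem_image.1 hb
    rw [← hc a' (hs ha') b' (hs hb')]
    exact hp a' ha' b' hb'
  have hpl' : ∀ s ⊆ S, Plane cross' (s.image f) → Plane cross s := by
    intro s hs hp a ha b hb
    rw [hc a (hs ha) b (hs hb)]
    exact hp _ (mem_image_of_mem f ha) _ (mem_image_of_mem f hb)
  have hpre : ∀ t : Finset E', t ⊆ S.image f → ∃ s ⊆ S, s.image f = t := by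
    intro t ht
    refine ⟨S.filter fun a => f a ∈ t, filter_subset _ _, ?_⟩
    ext b
    rw [mem_image]
    constructor
    · rintro ⟨a, ha, rfl⟩
      exact (mem_filter.1 ha).2
    · intro hb
      obtain ⟨a, ha, rfl⟩ := mem_image.1 (ht hb)
      exact ⟨a, mem_filter.2 ⟨ha, hb⟩, rfl⟩
  intro z hz hb
  -- the transported chain
  obtain ⟨z', hz'⟩ : ∃ z' : Finset E' → ZMod 2, (∀ s ⊆ S, z' (s.image f) = z s) ∧
      ∀ t, ¬ t ⊆ S.image f → z' t = 0 := by
    refine ⟨fun t => if t ⊆ S.image f then z (S.filter fun a => f a ∈ t) else 0, ?_, ?_⟩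
    · intro s hs
      have h1 : s.image f ⊆ S.image f := image_subset_image hs
      have h2 : (S.filter fun a => f a ∈ s.image f) = s := by
        ext a
        rw [mem_filter]
        constructor
        · rintro ⟨h3, h4⟩
          obtain ⟨b, hb1, hb2⟩ := mem_image.1 h4
          rw [← hf b (hs hb1) a h3 hb2]
          exact hb1
        · exact fun h3 => ⟨hs h3, mem_image_of_mem f h3⟩
      refine (if_pos h1).trans ?_
      rw [h2]
    · intro t ht
      exact if_neg ht
  obtain ⟨hz1, hz2⟩ := hz'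
  have bdz : ∀ (w : Finset E → ZMod 2) (w' : Finset E' → ZMod 2), (∀ s ⊆ S, w' (s.image f) = w s) →
      (∀ t, ¬ t ⊆ S.image f → w' t = 0) → (∀ s, ¬ s ⊆ S → w s = 0) →
      (∀ s ⊆ S, bd w' (s.image f) = bd w s) := by
    intro w w' h1 h2 h3 s hs
    unfold bd
    have e1 : ∑ e ∈ (s.image f)ᶜ, w' (insert e (s.image f)) =
        ∑ e ∈ (S \ s).image f, w' (insert e (s.image f)) := by
      symm
      apply sum_subset
      · intro e he
        obtain ⟨a, ha, rfl⟩ := mem_image.1 he
        rw [mem_sdiff] at ha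
        rw [mem_compl]
        intro h4
        obtain ⟨b, hb1, hb2⟩ := mem_image.1 h4
        rw [hf b (hs hb1) a ha.1 hb2] at hb1
        exact ha.2 hb1
      · intro e he1 he2
        apply h2
        intro h4
        have h5 := h4 (mem_insert_self _ _)
        obtain ⟨a, ha, rfl⟩ := mem_image.1 h5
        apply he2
        refine mem_image_of_mem f (mem_sdiff.2 ⟨ha, fun h6 => ?_⟩)
        exact (mem_compl.1 he1) (mem_image_of_mem f h6)
    have e2 : ∑ e ∈ sᶜ, w (insert e s) = ∑ e ∈ S \ s, w (insert e s) := by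
      symm
      apply sum_subset
      · intro e he
        exact mem_compl.2 (mem_sdiff.1 he).2
      · intro e he1 he2
        apply h3
        intro h4
        exact he2 (mem_sdiff.2 ⟨h4 (mem_insert_self _ _), mem_compl.1 he1⟩)
    rw [e1, e2, sum_image]
    · refine sum_congr rfl fun e he => ?_
      rw [mem_sdiff] at he
      rw [← image_insert]
      exact h1 _ (insert_subset he.1 hs)
    · intro a ha b hb hab
      exact hf a (mem_sdiff.1 ha).1 b (mem_sdiff.1 hb).1 hab
  obtain ⟨c', hc1, hc2⟩ := h z' (by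
    intro t ht
    have h1 : t ⊆ S.image f := by
      by_contra h1
      exact ht (hz2 t h1)
    obtain ⟨s, hs, rfl⟩ := hpre t h1
    rw [hz1 s hs] at ht
    obtain ⟨⟨h2, h3⟩, h4⟩ := hz s ht
    refine ⟨⟨h1, hpl s hs h3⟩, ?_⟩
    rw [hcard s hs]
    exact h4) (by
    intro t
    by_cases h1 : t ⊆ S.image f
    · obtain ⟨s, hs, rfl⟩ := hpre t h1
      rw [bdz z z' hz1 hz2 (fun s hs' => by
        by_contra h2
        exact hs' (hz s h2).1.1) s hs]
      exact hb s
    · unfold bd
      refine sum_eq_zero fun e _ => hz2 _ fun h2 => h1 ((subset_insert _ _).trans h2))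
  obtain ⟨c, hcd⟩ : ∃ c : Finset E → ZMod 2, c = fun s => if s ⊆ S then c' (s.image f) else 0 :=
    ⟨_, rfl⟩
  have c1 : ∀ s ⊆ S, c' (s.image f) = c s := by
    intro s hs
    rw [hcd]
    exact (if_pos hs).symm
  have c2 : ∀ s, ¬ s ⊆ S → c s = 0 := by
    intro s hs
    rw [hcd]
    exact if_neg hs
  have c3 : ∀ t, ¬ t ⊆ S.image f → c' t = 0 := by
    intro t ht
    by_contra h1
    exact ht (hc1 t h1).1.1
  refine ⟨c, fun s hs => ?_, fun r => ?_⟩
  · have h1 : s ⊆ S := by
      by_contra h1
      exact hs (c2 s h1)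
    rw [← c1 s h1] at hs
    obtain ⟨⟨_, h3⟩, h4⟩ := hc1 _ hs
    rw [hcard s h1] at h4
    exact ⟨⟨h1, hpl' s h1 h3⟩, h4⟩
  · by_cases h1 : r ⊆ S
    · rw [← bdz c c' c1 c3 c2 r h1, hc2, hz1 r h1]
    · have h2 : z r = 0 := by
        by_contra h2
        exact h1 (hz r h2).1.1
      rw [h2]
      unfold bd
      exact sum_eq_zero fun e _ => c2 _ fun h3 => h1 ((subset_insert _ _).trans h3)

section frame

variable {V : Type*} [Fintype V] [DecidableEq V]

/-- The cut vertex statement on `W` in degree `k`. -/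
def HCk (cross : Sym2 V → Sym2 V → Prop) (k : ℕ) (W : Finset V) : Prop :=
  ∀ (F : Finset (Sym2 V)) (v : V), F ⊆ LW W → Plane cross F → v ∈ W →
    ¬ Disc W F → Disc (W.erase v) (F.filter fun e => v ∉ e) → AcyN cross k (Un cross W F)

/-- `HE` in degree `k`. -/
def HEk (cross : Sym2 V → Sym2 V → Prop) (k : ℕ) : Prop :=
  ∀ (W : Finset V) (F : Finset (Sym2 V)) (v : V), F ⊆ LW W → Plane cross F → v ∈ W →
    ¬ Disc W F → Disc (W.erase v) (F.filter fun e => v ∉ e) →
    ∃ A B : Finset V, A.Nonempty ∧ B.Nonempty ∧ Disjoint A B ∧ A ∪ B = W.erase v ∧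
      (∀ x ∈ A, ∀ y ∈ B, s(x, y) ∉ F) ∧ AcyN cross k (Miss cross (br A B) F)

theorem hc_of_heN {cross : Sym2 V → Sym2 V → Prop} (hG : Geo cross) {n : ℕ} (hE : HEk cross n) :
    ∀ W, HCk cross n W := by
  intro W F0 v hF0 hp0 hv hc0 hd0
  have main : ∀ (k : ℕ) (F : Finset (Sym2 V)), (LW W).card - F.card = k → F ⊆ LW W →
      Plane cross F → ¬ Disc W F → Disc (W.erase v) (F.filter fun e => v ∉ e) →
      AcyN cross n (Un cross W F) := by
    intro k
    induction k using Nat.strong_induction_on with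
    | _ k ih =>
      intro F hk hF hp hc hd
      obtain ⟨A, B, hA, hB, hAB, hABW, hs, hacy⟩ := hE W F v hF hp hv hc hd
      have hvA : v ∉ A := fun h => by
        have h1 : v ∈ W.erase v := by rw [← hABW]; exact mem_union_left _ h
        exact (mem_erase.1 h1).1 rfl
      have hvB : v ∉ B := fun h => by
        have h1 : v ∈ W.erase v := by rw [← hABW]; exact mem_union_right _ h
        exact (mem_erase.1 h1).1 rfl
      have hAW : A ⊆ W := fun x hx => by
        have h1 : x ∈ W.erase v := by rw [← hABW]; exact mem_union_left _ hx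
        exact (mem_erase.1 h1).2
      have hBW : B ⊆ W := fun x hx => by
        have h1 : x ∈ W.erase v := by rw [← hABW]; exact mem_union_right _ hx
        exact (mem_erase.1 h1).2
      -- larger sets with the same separation
      have hbig : ∀ F' : Finset (Sym2 V), F ⊆ F' → F.card < F'.card → F' ⊆ LW W → Plane cross F' →
          (∀ x ∈ A, ∀ y ∈ B, s(x, y) ∉ F') → AcyN cross n (Un cross W F') := by
        intro F' h1 h2 h3 h4 h5
        have h6 := card_le_card h3
        refine ih _ (by omega) F' rfl h3 h4 (not_disc_mono hc h1) ⟨A, B, hA, hB, hAB, hABW, ?_⟩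
        exact fun x hx y hy h => h5 x hx y hy (mem_filter.1 h).1
      -- the bridging edges for larger sets
      have hbr : ∀ (j : ℕ) (F' : Finset (Sym2 V)), (LW W).card - F'.card = j → F ⊆ F' →
          F.card < F'.card → F' ⊆ LW W → Plane cross F' → (∀ x ∈ A, ∀ y ∈ B, s(x, y) ∉ F') →
          AcyN cross n (Miss cross (br A B) F') := by
        intro j
        induction j using Nat.strong_induction_on with
        | _ j ihj =>
          intro F' hj h1 h2 h3 h4 h5
          have hsub : Miss cross (br A B) F' ⊆ Un cross W F' := by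
            intro e he
            rw [mem_miss, mem_br] at he
            obtain ⟨⟨a, ha, b, hb, rfl⟩, h6⟩ := he
            exact mem_un.2 ⟨mem_LW.2 ⟨hAW ha, hBW hb, fun h => disjoint_left.1 hAB ha (h ▸ hb)⟩, h6,
              h5 a ha b hb⟩
          have hU : Miss cross (br A B) F' ∪ (Un cross W F' \ Miss cross (br A B) F') =
              Un cross W F' := by
            rw [union_sdiff_self_eq_union]
            exact union_eq_right.2 hsub
          have hM := hbig F' h1 h2 h3 h4 h5
          rw [← hU] at hM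
          refine splitN_mp hG.symm disjoint_sdiff (fun Y hY hYn hYp => ?_) hM
          have hYU : ∀ e ∈ Y, e ∈ Un cross W F' ∧ e ∉ Miss cross (br A B) F' :=
            fun e he => mem_sdiff.1 (hY he)
          have hdis : Disjoint F' Y :=
            disjoint_left.2 fun e he hY' => (mem_un.1 (hYU e hY').1).2.2 he
          have hsubW : F' ∪ Y ⊆ LW W := union_subset h3 fun e he => (mem_un.1 (hYU e he).1).1
          have hc1 : (F' ∪ Y).card = F'.card + Y.card := card_union_of_disjoint hdis
          have hc2 := card_le_card hsubW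
          have hc3 := card_pos.2 hYn
          rw [miss_miss]
          refine ihj _ (by omega) (F' ∪ Y) rfl (h1.trans subset_union_left) (by omega) hsubW ?_ ?_
          · exact plane_un hG.symm h4 hYp fun e he f hf h =>
              (mem_un.1 (hYU f hf).1).2.1 e he (hG.symm _ _ h)
          · intro x hx y hy h
            rcases mem_union.1 h with h | h
            · exact h5 x hx y hy h
            · exact (hYU _ h).2 (mem_miss.2 ⟨mem_br.2 ⟨x, hx, y, hy, rfl⟩,
                (mem_un.1 (hYU _ h).1).2.1⟩)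
      -- the set `F` itself
      have hsub : Miss cross (br A B) F ⊆ Un cross W F := by
        intro e he
        rw [mem_miss, mem_br] at he
        obtain ⟨⟨a, ha, b, hb, rfl⟩, h6⟩ := he
        exact mem_un.2 ⟨mem_LW.2 ⟨hAW ha, hBW hb, fun h => disjoint_left.1 hAB ha (h ▸ hb)⟩, h6,
          hs a ha b hb⟩
      have hU : Miss cross (br A B) F ∪ (Un cross W F \ Miss cross (br A B) F) = Un cross W F := by
        rw [union_sdiff_self_eq_union]
        exact union_eq_right.2 hsub
      rw [← hU]
      refine splitN_mpr hG.symm disjoint_sdiff (fun Y hY hYn hYp => ?_) hacy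
      have hYU : ∀ e ∈ Y, e ∈ Un cross W F ∧ e ∉ Miss cross (br A B) F :=
        fun e he => mem_sdiff.1 (hY he)
      have hdis : Disjoint F Y :=
        disjoint_left.2 fun e he hY' => (mem_un.1 (hYU e hY').1).2.2 he
      have hsubW : F ∪ Y ⊆ LW W := union_subset hF fun e he => (mem_un.1 (hYU e he).1).1
      have hc1 : (F ∪ Y).card = F.card + Y.card := card_union_of_disjoint hdis
      have hc3 := card_pos.2 hYn
      rw [miss_miss]
      refine (hbr _ (F ∪ Y) rfl subset_union_left (by omega) hsubW ?_ ?_).mono (by omega)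
      · exact plane_un hG.symm hp hYp fun e he f hf h =>
          (mem_un.1 (hYU f hf).1).2.1 e he (hG.symm _ _ h)
      · intro x hx y hy h
        rcases mem_union.1 h with h | h
        · exact hs x hx y hy h
        · exact (hYU _ h).2 (mem_miss.2 ⟨mem_br.2 ⟨x, hx, y, hy, rfl⟩,
            (mem_un.1 (hYU _ h).1).2.1⟩)
  exact main _ F0 rfl hF0 hp0 hc0 hd0

/-- `HC` from all degrees. -/
theorem hc_of_hck {cross : Sym2 V → Sym2 V → Prop} (h : ∀ k W, HCk cross k W) : HC cross :=
  fun W F b h1 h2 h3 h4 h5 => acy_of_acyN fun k => h k W F b h1 h2 h3 h4 h5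

end frame

end H66N
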