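import Pool.Agent.Lib.H24N.N1
import Pool.Agent.Lib.H98L.L1

/-!
# H66N, file N1: truncated acyclicity

`AcyN cross k S`: every cycle mod 2 of plane subsets of `S` with at most `k` elements is a boundary
(`k = 0`: there is an element). `acy_iff`: acyclic is the same as `AcyN` for all `k`. Splitting
(`splitN_mpr`, `splitN_mp`), isomorphism, cones, and the gluing lemma of the ladder theorem
(`glueN`), which raises the degree by one.
-/

set_option autoImplicit false
set_option linter.unusedSectionVars false

namespace H66N

open Finset H98P H98Z H24N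

variable {E : Type*} [Fintype E] [DecidableEq E]

/-- Every cycle of plane subsets of `S` with at most `k` elements is a boundary. -/
def AcyN (cross : E → E → Prop) (k : ℕ) (S : Finset E) : Prop :=
  ∀ z : Finset E → ZMod 2, (∀ s, z s ≠ 0 → (s ⊆ S ∧ Plane cross s) ∧ s.card ≤ k) →
    (∀ r, bd z r = 0) →
    ∃ c : Finset E → ZMod 2, (∀ s, c s ≠ 0 → (s ⊆ S ∧ Plane cross s) ∧ s.card ≤ k + 1) ∧
      ∀ r, bd c r = z r

/-- Cut off the high part of a chain. -/
theorem cutN {K : Finset E → Prop} {k : ℕ} {z c : Finset E → ZMod 2}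
    (hz : ∀ s, z s ≠ 0 → s.card ≤ k) (hc : ∀ s, c s ≠ 0 → K s) (h : ∀ r, bd c r = z r) :
    ∃ c' : Finset E → ZMod 2, (∀ s, c' s ≠ 0 → K s ∧ s.card ≤ k + 1) ∧ ∀ r, bd c' r = z r := by
  refine ⟨fun s => if s.card ≤ k + 1 then c s else 0, fun s hs => ?_, fun r => ?_⟩
  · simp only at hs
    split_ifs at hs with h1
    · exact ⟨hc s hs, h1⟩
    · exact absurd rfl hs
  · rcases Nat.lt_or_ge k r.card with h1 | h1
    · have h2 : z r = 0 := by
        by_contra h3
        have := hz r h3
        omega
      rw [h2]
      unfold bd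
      refine sum_eq_zero fun e he => ?_
      refine if_neg ?_
      rw [card_insert_of_notMem (mem_compl.1 he)]
      omega
    · rw [← h r]
      unfold bd
      refine sum_congr rfl fun e he => ?_
      refine if_pos ?_
      rw [card_insert_of_notMem (mem_compl.1 he)]
      omega

theorem acyN_of_acy {cross : E → E → Prop} {S : Finset E} (h : Acy cross S) (k : ℕ) :
    AcyN cross k S := by
  intro z hz hb
  obtain ⟨c, hc1, hc2⟩ := h z (fun s hs => (hz s hs).1) hb
  exact cutN (fun s hs => (hz s hs).2) hc1 hc2

theorem acy_of_acyN {cross : E → E → Prop} {S : Finset E} (h : ∀ k, AcyN cross k S) :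
    Acy cross S := by
  intro z hz hb
  obtain ⟨c, hc1, hc2⟩ := h (Fintype.card E) z (fun s hs => ⟨hz s hs, card_le_univ s⟩) hb
  exact ⟨c, fun s hs => (hc1 s hs).1, hc2⟩

/-- Acyclic is `AcyN` for all `k`. -/
theorem acy_iff {cross : E → E → Prop} {S : Finset E} : Acy cross S ↔ ∀ k, AcyN cross k S :=
  ⟨fun h k => acyN_of_acy h k, acy_of_acyN⟩

theorem AcyN.mono {cross : E → E → Prop} {S : Finset E} {k k' : ℕ} (h : AcyN cross k S)
    (hk : k' ≤ k) : AcyN cross k' S := by
  intro z hz hb
  obtain ⟨c, hc1, hc2⟩ := h z (fun s hs => ⟨(hz s hs).1, (hz s hs).2.trans hk⟩) hb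
  exact cutN (fun s hs => (hz s hs).2) (fun s hs => (hc1 s hs).1) hc2

/-- `AcyN` in degree `0` is nonemptiness. -/
theorem acyN_zero {cross : E → E → Prop} {S : Finset E} {e : E} (he : e ∈ S) (h : ¬ cross e e) :
    AcyN cross 0 S := by
  intro z hz _
  refine ⟨fun s => if s = {e} then z ∅ else 0, fun s hs => ?_, fun r => ?_⟩
  · simp only at hs
    split_ifs at hs with h1
    · subst h1
      refine ⟨⟨singleton_subset_iff.2 he, ?_⟩, by rw [card_singleton]⟩
      intro a ha b hb
      rw [mem_singleton] at ha hb
      rw [ha, hb]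
      exact h
    · exact absurd rfl hs
  · by_cases h1 : r = ∅
    · subst h1
      unfold bd
      rw [sum_eq_single e]
      · exact if_pos (insert_empty_eq e)
      · intro b _ hbe
        refine if_neg ?_
        rw [insert_empty_eq]
        exact fun h2 => hbe (singleton_injective h2)
      · intro h2
        exact absurd (mem_compl.2 (notMem_empty e)) h2
    · have h2 : z r = 0 := by
        by_contra h3
        have h4 := (hz r h3).2
        exact h1 (card_eq_zero.1 (by omega))
      rw [h2]
      unfold bd
      refine sum_eq_zero fun b hb => ?_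
      refine if_neg ?_
      intro h3
      have h4 := congrArg Finset.card h3
      rw [card_insert_of_notMem (mem_compl.1 hb), card_singleton] at h4
      exact h1 (card_eq_zero.1 (by omega))

theorem nonempty_of_acyN {cross : E → E → Prop} {S : Finset E} {k : ℕ} (h : AcyN cross k S) :
    S.Nonempty := by
  obtain ⟨c, hc1, hc2⟩ := h (fun s => if s = ∅ then 1 else 0) (by
    intro s hs
    by_cases h1 : s = ∅
    · subst h1
      exact ⟨⟨empty_subset _, fun a ha => absurd ha (notMem_empty a)⟩, by simp⟩
    · exact absurd (if_neg h1) hs) (by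
    intro r
    unfold bd
    refine sum_eq_zero fun e _ => ?_
    exact if_neg (insert_ne_empty e r))
  have h1 := hc2 ∅
  have h2 : bd c ∅ ≠ 0 := by
    rw [h1]
    simp
  obtain ⟨e, _, he⟩ := bd_ne h2
  exact ⟨e, (hc1 _ he).1.1 (mem_insert_self _ _)⟩

/-- REDUCTION, truncated. -/
theorem redN {cross : E → E → Prop} (hsymm : ∀ e f, cross e f → cross f e) {S T : Finset E}
    (hST : Disjoint S T) {m : ℕ}
    (hl : ∀ Y ⊆ T, Y.Nonempty → Plane cross Y → AcyN cross (m - 1) (Miss cross S Y)) :
    ∀ (k : ℕ) (w : Finset E → ZMod 2), (∀ s, w s ≠ 0 → (s ⊆ S ∪ T ∧ Plane cross s) ∧ s.card ≤ m) →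
      (∀ r, (r ∩ T).Nonempty → bd w r = 0) → (∀ s, k < (s ∩ T).card → w s = 0) →
      ∃ u : Finset E → ZMod 2, (∀ s, u s ≠ 0 → (s ⊆ S ∪ T ∧ Plane cross s) ∧ s.card ≤ m + 1) ∧
        ∀ s, w s + bd u s ≠ 0 → (s ⊆ S ∧ Plane cross s) ∧ s.card ≤ m := by
  intro k
  induction k with
  | zero =>
    intro w hw _ hk
    refine ⟨fun _ => 0, fun s hs => absurd rfl hs, ?_⟩
    intro s hs
    rw [bd_zero, add_zero] at hs
    obtain ⟨⟨h1, h2⟩, h0⟩ := hw s hs
    have h3 : (s ∩ T).card = 0 := by
      by_contra h
      exact hs (hk s (Nat.pos_of_ne_zero h))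
    rw [card_eq_zero] at h3
    refine ⟨⟨fun e he => ?_, h2⟩, h0⟩
    rcases mem_union.1 (h1 he) with h4 | h4
    · exact h4
    · exact absurd (mem_inter.2 ⟨he, h4⟩) (by rw [h3]; exact notMem_empty e)
  | succ k ih =>
    intro w hw hz hk
    have key : ∀ Y : Finset E, ∃ c : Finset E → ZMod 2,
        (∀ s, c s ≠ 0 → s ⊆ Miss cross S Y ∧ Plane cross s ∧ Y ⊆ T ∧ Plane cross Y ∧
          s.card + Y.card ≤ m + 1) ∧
        (Y ⊆ T → Y.card = k + 1 → ∀ r, Disjoint r T → bd c r = w (r ∪ Y)) := by
      intro Y
      by_cases hY : Y ⊆ T ∧ Y.card = k + 1 ∧ Plane cross Y ∧ Y.card ≤ m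
      · obtain ⟨hYT, hYc, hYp, hYm⟩ := hY
        have hYn : Y.Nonempty := card_pos.1 (by omega)
        obtain ⟨c, hc1, hc2⟩ := (hl Y hYT hYn hYp).mono (k' := m - Y.card) (by omega)
            (fun s => if s ⊆ S then w (s ∪ Y) else 0) (by
          intro s hs
          by_cases h : s ⊆ S
          · simp only [h, if_true] at hs
            obtain ⟨⟨h1, h2⟩, h3⟩ := hw _ hs
            refine ⟨⟨fun e he => mem_miss.2 ⟨h he, fun y hy => ?_⟩, plane_sub subset_union_left h2⟩, ?_⟩
            · exact h2 e (mem_union_left _ he) y (mem_union_right _ hy)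
            · have h4 : Disjoint s Y := disjoint_of_subset_left h (disjoint_of_subset_right hYT hST)
              rw [card_union_of_disjoint h4] at h3
              omega
          · simp only [h, if_false] at hs
            exact absurd rfl hs) (by
          intro r
          by_cases h : r ⊆ S
          · have hrT : Disjoint r T := disjoint_of_subset_left h hST
            have e1 : bd w (r ∪ Y) = 0 := by
              apply hz
              obtain ⟨y, hy⟩ := hYn
              exact ⟨y, mem_inter.2 ⟨mem_union_right _ hy, hYT hy⟩⟩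
            refine Eq.trans ?_ e1
            simp only [bd]
            symm
            have hsub : (r ∪ Y)ᶜ ⊆ rᶜ := compl_subset_compl.2 subset_union_left
            rw [← sum_subset hsub]
            · refine sum_congr rfl fun e he => ?_
              rw [mem_compl] at he
              by_cases heS : e ∈ S
              · have h3 : insert e r ⊆ S := insert_subset heS h
                rw [if_pos h3, insert_union]
              · have h3 : ¬ insert e r ⊆ S := fun h4 => heS (h4 (mem_insert_self _ _))
                rw [if_neg h3]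
                by_contra h5
                have h6 := (hw _ h5).1.1 (mem_insert_self _ _)
                have heT : e ∈ T := by
                  rcases mem_union.1 h6 with h7 | h7
                  · exact absurd h7 heS
                  · exact h7
                apply h5
                apply hk
                have h8 : insert e Y ⊆ insert e (r ∪ Y) ∩ T := by
                  intro x hx
                  rcases mem_insert.1 hx with rfl | hx
                  · exact mem_inter.2 ⟨mem_insert_self _ _, heT⟩
                  · exact mem_inter.2 ⟨mem_insert_of_mem (mem_union_right _ hx), hYT hx⟩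
                have h9 := card_le_card h8
                rw [card_insert_of_notMem (fun h => he (mem_union_right _ h)), hYc] at h9
                omega
            · intro e he1 he2
              have heY : e ∈ Y := by
                rw [mem_compl] at he1 he2
                by_contra h5
                apply he2
                intro h6
                rcases mem_union.1 h6 with h7 | h7
                · exact he1 h7
                · exact h5 h7
              rw [if_neg]
              intro h3
              exact disjoint_left.1 hST (h3 (mem_insert_self _ _)) (hYT heY)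
          · simp only [bd]
            refine sum_eq_zero fun e _ => ?_
            rw [if_neg]
            intro h3
            exact h ((subset_insert _ _).trans h3))
        refine ⟨c, fun s hs => ⟨(hc1 s hs).1.1, (hc1 s hs).1.2, hYT, hYp, ?_⟩, ?_⟩
        · have := (hc1 s hs).2
          omega
        intro _ _ r hr
        rw [hc2 r]
        by_cases h : r ⊆ S
        · rw [if_pos h]
        · rw [if_neg h]
          by_contra h1
          apply h
          intro e he
          have h2 := (hw _ (Ne.symm h1)).1.1 (mem_union_left _ he)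
          rcases mem_union.1 h2 with h3 | h3
          · exact h3
          · exact absurd h3 (disjoint_left.1 hr he)
      · refine ⟨fun _ => 0, fun s hs => absurd rfl hs, ?_⟩
        intro h1 h2 r _
        rw [bd_zero]
        by_contra h3
        apply hY
        obtain ⟨⟨h4, h5⟩, h6⟩ := hw _ (Ne.symm h3)
        exact ⟨h1, h2, plane_sub subset_union_right h5, (card_le_card subset_union_right).trans h6⟩
    choose c hc1 hc2 using key
    set u₁ : Finset E → ZMod 2 :=
      fun s => if (s ∩ T).card = k + 1 then c (s ∩ T) (s \ T) else 0 with hu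
    have hu1 : ∀ s, u₁ s ≠ 0 → (s ⊆ S ∪ T ∧ Plane cross s) ∧ s.card ≤ m + 1 := by
      intro s hs
      rw [hu] at hs
      simp only at hs
      split_ifs at hs with h
      · obtain ⟨h1, h2, h3, h4, h5⟩ := hc1 _ _ hs
        have hs' : s = (s \ T) ∪ (s ∩ T) := by
          ext x
          simp only [mem_union, mem_sdiff, mem_inter]
          tauto
        refine ⟨⟨?_, ?_⟩, ?_⟩
        · intro e he
          by_cases heT : e ∈ T
          · exact mem_union_right _ heT
          · exact mem_union_left _ (mem_miss.1 (h1 (mem_sdiff.2 ⟨he, heT⟩))).1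
        · rw [hs']
          exact plane_un hsymm h2 h4 fun e he f hf => (mem_miss.1 (h1 he)).2 f hf
        · rw [← card_sdiff_add_card_inter s T]
          exact h5
      · exact absurd rfl hs
    have hbu : ∀ s, bd u₁ s ≠ 0 → (s ⊆ S ∪ T ∧ Plane cross s) ∧ s.card ≤ m := by
      intro s hs
      obtain ⟨e, he0, he⟩ := bd_ne hs
      obtain ⟨⟨h1, h2⟩, h3⟩ := hu1 _ he
      rw [card_insert_of_notMem he0] at h3
      exact ⟨⟨(subset_insert _ _).trans h1, plane_sub (subset_insert _ _) h2⟩, by omega⟩
    have hlev : ∀ s, k < (s ∩ T).card → w s + bd u₁ s = 0 := by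
      intro s hs
      rcases Nat.lt_or_ge (k + 1) (s ∩ T).card with h | h
      · rw [hk s h, zero_add]
        unfold bd
        refine sum_eq_zero fun e _ => ?_
        rw [hu]
        simp only
        rw [if_neg]
        have h1 : s ∩ T ⊆ insert e s ∩ T := inter_subset_inter_right (subset_insert _ _)
        have h2 := card_le_card h1
        omega
      · have hcard : (s ∩ T).card = k + 1 := by omega
        have hr : Disjoint (s \ T) T := sdiff_disjoint
        have h1 := hc2 (s ∩ T) inter_subset_right hcard (s \ T) hr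
        have hs' : (s \ T) ∪ (s ∩ T) = s := by
          ext x
          simp only [mem_union, mem_sdiff, mem_inter]
          tauto
        rw [hs'] at h1
        have h2 : bd u₁ s = bd (c (s ∩ T)) (s \ T) := by
          unfold bd
          have a1 : ∑ e ∈ sᶜ, u₁ (insert e s) = ∑ e ∈ sᶜ \ T, c (s ∩ T) (insert e (s \ T)) := by
            symm
            rw [← sum_subset (sdiff_subset : sᶜ \ T ⊆ sᶜ)]
            · refine sum_congr rfl fun e he => ?_
              rw [mem_sdiff, mem_compl] at he
              obtain ⟨he1, he2⟩ := he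
              have b1 : insert e s ∩ T = s ∩ T := by
                ext x
                simp only [mem_inter, mem_insert]
                constructor
                · rintro ⟨rfl | h3, h4⟩
                  · exact absurd h4 he2
                  · exact ⟨h3, h4⟩
                · rintro ⟨h3, h4⟩
                  exact ⟨Or.inr h3, h4⟩
              have b2 : insert e s \ T = insert e (s \ T) := insert_sdiff_of_notMem _ he2
              rw [hu]
              simp only
              rw [b1, if_pos hcard, b2]
            · intro e he1 he2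
              rw [mem_compl] at he1
              have heT : e ∈ T := by
                by_contra h3
                exact he2 (mem_sdiff.2 ⟨mem_compl.2 he1, h3⟩)
              rw [hu]
              simp only
              rw [if_neg]
              have b1 : insert e s ∩ T = insert e (s ∩ T) := insert_inter_of_mem heT
              rw [b1, card_insert_of_notMem (fun h3 => he1 (mem_inter.1 h3).1), hcard]
              omega
          rw [a1]
          apply sum_subset
          · intro e he
            rw [mem_sdiff, mem_compl] at he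
            rw [mem_compl]
            exact fun h3 => he.1 (mem_sdiff.1 h3).1
          · intro e he1 he2
            by_contra h3
            have h4 := (hc1 _ _ h3).1 (mem_insert_self _ _)
            have heS := (mem_miss.1 h4).1
            have heT : e ∉ T := disjoint_left.1 hST heS
            apply he2
            rw [mem_sdiff, mem_compl]
            rw [mem_compl] at he1
            exact ⟨fun h5 => he1 (mem_sdiff.2 ⟨h5, heT⟩), heT⟩
        rw [h2, h1]
        exact CharTwo.add_self_eq_zero _
    obtain ⟨u₂, hu2, hu3⟩ := ih (fun s => w s + bd u₁ s) (by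
      intro s hs
      by_cases h1 : w s = 0
      · have h2 : bd u₁ s ≠ 0 := by
          intro h3
          exact hs (by rw [h1, h3, add_zero])
        exact hbu s h2
      · exact hw s h1) (by
      intro r hr
      rw [bd_add, bd_bd, add_zero]
      exact hz r hr) hlev
    refine ⟨fun s => u₁ s + u₂ s, ?_, ?_⟩
    · intro s hs
      by_cases h1 : u₁ s = 0
      · simp only [h1, zero_add] at hs
        exact hu2 s hs
      · exact hu1 s h1
    · intro s hs
      apply hu3
      rw [bd_add, ← add_assoc] at hs
      exact hs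

/-- SPLIT: adding elements whose links are acyclic (one degree less is enough). -/
theorem splitN_mpr {cross : E → E → Prop} (hsymm : ∀ e f, cross e f → cross f e) {S T : Finset E}
    (hST : Disjoint S T) {k : ℕ}
    (hl : ∀ Y ⊆ T, Y.Nonempty → Plane cross Y → AcyN cross (k - 1) (Miss cross S Y))
    (hS : AcyN cross k S) : AcyN cross k (S ∪ T) := by
  intro z hz hb
  obtain ⟨u, hu1, hu2⟩ := redN hsymm hST hl (Fintype.card E) z hz (fun r _ => hb r) (by
    intro s hs
    exact absurd (card_le_univ (s ∩ T)) (by omega))
  obtain ⟨c, hc1, hc2⟩ := hS (fun s => z s + bd u s) hu2 (by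
    intro r
    rw [bd_add, bd_bd, add_zero, hb])
  refine ⟨fun s => c s + u s, ?_, ?_⟩
  · intro s hs
    by_cases h1 : c s = 0
    · simp only [h1, zero_add] at hs
      exact hu1 s hs
    · obtain ⟨⟨h2, h3⟩, h4⟩ := hc1 s h1
      exact ⟨⟨h2.trans subset_union_left, h3⟩, h4⟩
  · intro r
    rw [bd_add, hc2, add_assoc, CharTwo.add_self_eq_zero, add_zero]

/-- SPLIT: removing elements whose links are acyclic (same degree). -/
theorem splitN_mp {cross : E → E → Prop} (hsymm : ∀ e f, cross e f → cross f e) {S T : Finset E}
    (hST : Disjoint S T) {k : ℕ}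
    (hl : ∀ Y ⊆ T, Y.Nonempty → Plane cross Y → AcyN cross k (Miss cross S Y))
    (hS : AcyN cross k (S ∪ T)) : AcyN cross k S := by
  intro z hz hb
  obtain ⟨c, hc1, hc2⟩ := hS z (fun s hs => ⟨⟨(hz s hs).1.1.trans subset_union_left,
    (hz s hs).1.2⟩, (hz s hs).2⟩) hb
  obtain ⟨u, hu1, hu2⟩ := redN hsymm hST (m := k + 1) hl (Fintype.card E) c hc1 (by
    intro r hr
    rw [hc2]
    by_contra h
    obtain ⟨x, hx⟩ := hr
    rw [mem_inter] at hx
    exact disjoint_left.1 hST ((hz r h).1.1 hx.1) hx.2) (by
    intro s hs
    exact absurd (card_le_univ (s ∩ T)) (by omega))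
  refine ⟨fun s => c s + bd u s, hu2, ?_⟩
  intro r
  rw [bd_add, bd_bd, add_zero, hc2]

/-- A set all of whose elements miss `d`. -/
theorem acyN_apex {cross : E → E → Prop} (hsymm : ∀ e f, cross e f → cross f e) {X : Finset E}
    {d : E} (hd : d ∈ X) (h : ∀ z ∈ X, ¬ cross d z) (k : ℕ) : AcyN cross k X := by
  refine acyN_of_acy (fun z hz hb => ?_) k
  refine acyclic hsymm (S := {d}) (singleton_subset_iff.2 hd) ?_ (fun F hF _ => ⟨d,
    mem_singleton_self d, fun f hf => h f (mem_sdiff.1 (hF hf)).1⟩) hz hb
  intro a ha b hb'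
  rw [mem_singleton] at ha hb'
  rw [ha, hb']
  exact h d hd

/-- Acyclicity in low degree of a complex of finite sets. -/
def AcyKN (k : ℕ) (K : Finset E → Prop) : Prop :=
  ∀ z : Finset E → ZMod 2, (∀ s, z s ≠ 0 → K s ∧ s.card ≤ k) → (∀ r, bd z r = 0) →
    ∃ c : Finset E → ZMod 2, (∀ s, c s ≠ 0 → K s ∧ s.card ≤ k + 1) ∧ ∀ r, bd c r = z r

theorem AcyKN.congr {k : ℕ} {K K' : Finset E → Prop} (h : ∀ s, K s ↔ K' s) (hK : AcyKN k K) :
    AcyKN k K' := by
  have h1 : K = K' := funext fun s => propext (h s)
  rw [← h1]
  exact hK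

theorem acyKN_iff {cross : E → E → Prop} {k : ℕ} {S : Finset E} :
    AcyKN k (fun s => s ⊆ S ∧ Plane cross s) ↔ AcyN cross k S := Iff.rfl

/-- MAYER-VIETORIS with the degree shift. -/
theorem mvN {K L : Finset E → Prop} (hK : DC K) (hL : DC L) {k : ℕ} (h1 : AcyKN (k + 1) K)
    (h2 : AcyKN (k + 1) L) (h3 : AcyKN k fun s => K s ∧ L s) :
    AcyKN (k + 1) fun s => K s ∨ L s := by
  classical
  intro z hz hb
  obtain ⟨z1, hz1⟩ : ∃ z1 : Finset E → ZMod 2, z1 = fun s => if K s then z s else 0 := ⟨_, rfl⟩
  obtain ⟨z2, hz2⟩ : ∃ z2 : Finset E → ZMod 2, z2 = fun s => if K s then 0 else z s := ⟨_, rfl⟩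
  have hz12 : ∀ s, z1 s + z2 s = z s := by
    intro s
    rw [hz1, hz2]
    by_cases h : K s
    · simp only [h, if_true, add_zero]
    · simp only [h, if_false, zero_add]
  have s1 : ∀ s, z1 s ≠ 0 → K s ∧ s.card ≤ k + 1 := by
    intro s hs
    rw [hz1] at hs
    by_cases h : K s
    · simp only [h, if_true] at hs
      exact ⟨h, (hz s hs).2⟩
    · simp only [h, if_false] at hs
      exact absurd rfl hs
  have s2 : ∀ s, z2 s ≠ 0 → L s ∧ s.card ≤ k + 1 := by
    intro s hs
    rw [hz2] at hs
    by_cases h : K s
    · simp only [h, if_true] at hs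
      exact absurd rfl hs
    · simp only [h, if_false] at hs
      exact ⟨(hz s hs).1.resolve_left h, (hz s hs).2⟩
  have hbe : ∀ r, bd z1 r = bd z2 r := by
    intro r
    have h4 := hb r
    have h5 : z = fun s => z1 s + z2 s := funext fun s => (hz12 s).symm
    rw [h5, bd_add] at h4
    exact CharTwo.add_eq_zero.1 h4
  obtain ⟨u, hu1, hu2⟩ := h3 (bd z1) (by
    intro r hr
    refine ⟨⟨bd_supp hK (fun s hs => (s1 s hs).1) r hr,
      bd_supp hL (fun s hs => (s2 s hs).1) r (by rw [← hbe]; exact hr)⟩, ?_⟩
    obtain ⟨e, he0, he⟩ := bd_ne hr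
    have := (s1 _ he).2
    rw [card_insert_of_notMem he0] at this
    omega) (bd_bd z1)
  obtain ⟨c1, hc1, hc1'⟩ := h1 (fun s => z1 s + u s) (by
    intro s hs
    replace hs : z1 s + u s ≠ 0 := hs
    by_cases h : z1 s = 0
    · rw [h, zero_add] at hs
      exact ⟨(hu1 s hs).1.1, (hu1 s hs).2⟩
    · exact s1 s h) (by
    intro r
    rw [bd_add, hu2]
    exact CharTwo.add_self_eq_zero _)
  obtain ⟨c2, hc2, hc2'⟩ := h2 (fun s => z2 s + u s) (by
    intro s hs
    replace hs : z2 s + u s ≠ 0 := hs
    by_cases h : z2 s = 0
    · rw [h, zero_add] at hs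
      exact ⟨(hu1 s hs).1.2, (hu1 s hs).2⟩
    · exact s2 s h) (by
    intro r
    rw [bd_add, hu2, hbe]
    exact CharTwo.add_self_eq_zero _)
  refine ⟨fun s => c1 s + c2 s, ?_, ?_⟩
  · intro s hs
    replace hs : c1 s + c2 s ≠ 0 := hs
    by_cases h : c1 s = 0
    · rw [h, zero_add] at hs
      exact ⟨Or.inr (hc2 s hs).1, (hc2 s hs).2⟩
    · exact ⟨Or.inl (hc1 s h).1, (hc1 s h).2⟩
  intro r
  rw [bd_add, hc1', hc2', ← hz12]
  have h6 : u r + u r = 0 := CharTwo.add_self_eq_zero _
  calc z1 r + u r + (z2 r + u r) = z1 r + z2 r + (u r + u r) := by ring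
    _ = z1 r + z2 r := by rw [h6, add_zero]

end H66N
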